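import Mathlib

set_option autoImplicit false

namespace Pool.Agent.Results.MP_df7fe8_co.LatticeCounterexample

/-- The elements of the lattice: `low A` for finite `A ⊆ X`, `up B` for finite nonempty `B ⊆ Y`,
and for `x : X`, `y : Y` a chain of `n x y` elements `mid x y i`. -/
inductive El (X Y : Type) (n : X → Y → ℕ) : Type
  | low (A : Finset X) : El X Y n
  | up (B : Finset Y) (h : B.Nonempty) : El X Y n
  | mid (x : X) (y : Y) (i : ℕ) (h : i < n x y) : El X Y n

variable {X Y : Type} {n : X → Y → ℕ}

namespace El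

/-- the order relation -/
def Le : El X Y n → El X Y n → Prop
  | low A, low A' => A' ⊆ A
  | low _, up _ _ => True
  | low A, mid x _ _ _ => x ∈ A
  | mid _ _ _ _, low _ => False
  | mid x y i _, mid x' y' i' _ => x = x' ∧ y = y' ∧ i ≤ i'
  | mid _ y _ _, up B _ => y ∈ B
  | up _ _, low _ => False
  | up _ _, mid _ _ _ _ => False
  | up B _, up B' _ => B ⊆ B'

theorem le_refl' (a : El X Y n) : Le a a := by
  cases a <;> simp [Le]

theorem le_trans' (a b c : El X Y n) (h1 : Le a b) (h2 : Le b c) : Le a c := by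
  cases a <;> cases b <;> cases c <;> simp only [Le] at h1 h2 ⊢
  · exact h2.trans h1
  · exact h1 h2
  · obtain ⟨rfl, _, _⟩ := h2; exact h1
  · exact h1.trans h2
  · exact h2 h1
  · obtain ⟨_, rfl, _⟩ := h1; exact h2
  · obtain ⟨rfl, rfl, h⟩ := h1
    obtain ⟨rfl, rfl, h'⟩ := h2
    exact ⟨rfl, rfl, h.trans h'⟩

theorem le_antisymm' (a b : El X Y n) (h1 : Le a b) (h2 : Le b a) : a = b := by
  cases a <;> cases b <;> simp only [Le] at h1 h2
  · rw [Finset.Subset.antisymm h2 h1]
  · congr 1; exact Finset.Subset.antisymm h1 h2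
  · obtain ⟨rfl, rfl, h⟩ := h1
    obtain ⟨_, _, h'⟩ := h2
    congr 1; exact Nat.le_antisymm h h'

instance : PartialOrder (El X Y n) where
  le := Le
  le_refl := le_refl'
  le_trans := le_trans'
  le_antisymm := le_antisymm'

theorem low_le_low {A A' : Finset X} : (low A : El X Y n) ≤ low A' ↔ A' ⊆ A := Iff.rfl
theorem low_le_up {A : Finset X} {B : Finset Y} {h} : (low A : El X Y n) ≤ up B h := trivial
theorem low_le_mid {A : Finset X} {x : X} {y : Y} {i : ℕ} {h} :
    (low A : El X Y n) ≤ mid x y i h ↔ x ∈ A := Iff.rfl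
theorem not_mid_le_low {A : Finset X} {x : X} {y : Y} {i : ℕ} {h} :
    ¬ (mid x y i h : El X Y n) ≤ low A := fun h => h
theorem mid_le_mid {x x' : X} {y y' : Y} {i i' : ℕ} {h h'} :
    (mid x y i h : El X Y n) ≤ mid x' y' i' h' ↔ x = x' ∧ y = y' ∧ i ≤ i' := Iff.rfl
theorem mid_le_up {B : Finset Y} {x : X} {y : Y} {i : ℕ} {h h'} :
    (mid x y i h : El X Y n) ≤ up B h' ↔ y ∈ B := Iff.rfl
theorem not_up_le_low {A : Finset X} {B : Finset Y} {h} : ¬ (up B h : El X Y n) ≤ low A :=
  fun h => h
theorem not_up_le_mid {B : Finset Y} {x : X} {y : Y} {i : ℕ} {h h'} :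
    ¬ (up B h' : El X Y n) ≤ mid x y i h := fun h => h
theorem up_le_up {B B' : Finset Y} {h h'} : (up B h : El X Y n) ≤ up B' h' ↔ B ⊆ B' := Iff.rfl

theorem exists_sup (a b : El X Y n) : ∃ c, a ≤ c ∧ b ≤ c ∧ ∀ d, a ≤ d → b ≤ d → c ≤ d := by
  classical
  -- symmetric version to reduce the number of cases
  have lm : ∀ (A : Finset X) (x : X) (y : Y) (i : ℕ) (h : i < n x y),
      ∃ c : El X Y n, low A ≤ c ∧ mid x y i h ≤ c ∧
        ∀ d, low A ≤ d → mid x y i h ≤ d → c ≤ d := by
    intro A x y i h
    by_cases hx : x ∈ A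
    · exact ⟨mid x y i h, hx, le_rfl, fun d _ h2 => h2⟩
    · refine ⟨up {y} (Finset.singleton_nonempty y), trivial, ?_, ?_⟩
      · exact mid_le_up.2 (Finset.mem_singleton_self y)
      · intro d h1 h2
        cases d with
        | low A' => exact absurd h2 not_mid_le_low
        | up B hB => exact up_le_up.2 (Finset.singleton_subset_iff.2 h2)
        | mid x' y' i' h' =>
          obtain ⟨rfl, _, _⟩ := mid_le_mid.1 h2
          exact absurd h1 hx
  have lu : ∀ (A : Finset X) (B : Finset Y) (h : B.Nonempty),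
      ∃ c : El X Y n, low A ≤ c ∧ up B h ≤ c ∧ ∀ d, low A ≤ d → up B h ≤ d → c ≤ d :=
    fun A B h => ⟨up B h, trivial, le_rfl, fun d _ h2 => h2⟩
  have mu : ∀ (x : X) (y : Y) (i : ℕ) (h : i < n x y) (B : Finset Y) (hB : B.Nonempty),
      ∃ c : El X Y n, mid x y i h ≤ c ∧ up B hB ≤ c ∧
        ∀ d, mid x y i h ≤ d → up B hB ≤ d → c ≤ d := by
    intro x y i h B hB
    refine ⟨up (insert y B) (Finset.insert_nonempty _ _), mid_le_up.2 (Finset.mem_insert_self _ _),
      up_le_up.2 (Finset.subset_insert _ _), ?_⟩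
    intro d h1 h2
    cases d with
    | low A' => exact absurd h2 not_up_le_low
    | up B' hB' => exact up_le_up.2 (Finset.insert_subset h1 h2)
    | mid x' y' i' h' => exact absurd h2 not_up_le_mid
  cases a with
  | low A =>
    cases b with
    | low A' =>
      refine ⟨low (A ∩ A'), low_le_low.2 Finset.inter_subset_left,
        low_le_low.2 Finset.inter_subset_right, ?_⟩
      intro d h1 h2
      cases d with
      | low D => exact low_le_low.2 (Finset.subset_inter h1 h2)
      | up D hD => exact trivial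
      | mid x y i h => exact Finset.mem_inter.2 ⟨h1, h2⟩
    | up B h => exact lu A B h
    | mid x y i h => exact lm A x y i h
  | up B h =>
    cases b with
    | low A =>
      obtain ⟨c, h1, h2, h3⟩ := lu A B h
      exact ⟨c, h2, h1, fun d hd1 hd2 => h3 d hd2 hd1⟩
    | up B' h' =>
      refine ⟨up (B ∪ B') (h.mono Finset.subset_union_left), up_le_up.2 Finset.subset_union_left,
        up_le_up.2 Finset.subset_union_right, ?_⟩
      intro d h1 h2
      cases d with
      | low A' => exact absurd h2 not_up_le_low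
      | up D hD => exact up_le_up.2 (Finset.union_subset h1 h2)
      | mid x' y' i' h' => exact absurd h2 not_up_le_mid
    | mid x y i h' =>
      obtain ⟨c, h1, h2, h3⟩ := mu x y i h' B h
      exact ⟨c, h2, h1, fun d hd1 hd2 => h3 d hd2 hd1⟩
  | mid x y i h =>
    cases b with
    | low A =>
      obtain ⟨c, h1, h2, h3⟩ := lm A x y i h
      exact ⟨c, h2, h1, fun d hd1 hd2 => h3 d hd2 hd1⟩
    | up B h' => exact mu x y i h B h'
    | mid x' y' i' h' =>
      by_cases hs : x = x' ∧ y = y'
      · obtain ⟨rfl, rfl⟩ := hs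
        rcases le_total i i' with hi | hi
        · exact ⟨mid x y i' h', ⟨rfl, rfl, hi⟩, le_rfl, fun d _ h2 => h2⟩
        · exact ⟨mid x y i h, le_rfl, ⟨rfl, rfl, hi⟩, fun d h1 _ => h1⟩
      · refine ⟨up {y, y'} (Finset.insert_nonempty _ _), mid_le_up.2 (by simp),
          mid_le_up.2 (by simp), ?_⟩
        intro d h1 h2
        cases d with
        | low A' => exact absurd h2 not_mid_le_low
        | up D hD =>
          refine up_le_up.2 (Finset.insert_subset h1 (Finset.singleton_subset_iff.2 h2))
        | mid x'' y'' i'' h'' =>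
          obtain ⟨rfl, rfl, _⟩ := mid_le_mid.1 h1
          obtain ⟨rfl, rfl, _⟩ := mid_le_mid.1 h2
          exact absurd ⟨rfl, rfl⟩ hs

theorem exists_inf (a b : El X Y n) : ∃ c, c ≤ a ∧ c ≤ b ∧ ∀ d, d ≤ a → d ≤ b → d ≤ c := by
  classical
  have lm : ∀ (A : Finset X) (x : X) (y : Y) (i : ℕ) (h : i < n x y),
      ∃ c : El X Y n, c ≤ low A ∧ c ≤ mid x y i h ∧
        ∀ d, d ≤ low A → d ≤ mid x y i h → d ≤ c := by
    intro A x y i h
    refine ⟨low (insert x A), low_le_low.2 (Finset.subset_insert _ _),
      low_le_mid.2 (Finset.mem_insert_self _ _), ?_⟩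
    intro d h1 h2
    cases d with
    | low D => exact low_le_low.2 (Finset.insert_subset h2 h1)
    | up D hD => exact absurd h1 not_up_le_low
    | mid x' y' i' h' => exact absurd h1 not_mid_le_low
  have lu : ∀ (A : Finset X) (B : Finset Y) (h : B.Nonempty),
      ∃ c : El X Y n, c ≤ low A ∧ c ≤ up B h ∧ ∀ d, d ≤ low A → d ≤ up B h → d ≤ c :=
    fun A B h => ⟨low A, le_rfl, trivial, fun d h1 _ => h1⟩
  have mu : ∀ (x : X) (y : Y) (i : ℕ) (h : i < n x y) (B : Finset Y) (hB : B.Nonempty),
      ∃ c : El X Y n, c ≤ mid x y i h ∧ c ≤ up B hB ∧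
        ∀ d, d ≤ mid x y i h → d ≤ up B hB → d ≤ c := by
    intro x y i h B hB
    by_cases hy : y ∈ B
    · exact ⟨mid x y i h, le_rfl, hy, fun d h1 _ => h1⟩
    · refine ⟨low {x}, low_le_mid.2 (Finset.mem_singleton_self x), trivial, ?_⟩
      intro d h1 h2
      cases d with
      | low D => exact low_le_low.2 (Finset.singleton_subset_iff.2 h1)
      | up D hD => exact absurd h1 not_up_le_mid
      | mid x' y' i' h' =>
        obtain ⟨_, rfl, _⟩ := mid_le_mid.1 h1
        exact absurd h2 hy
  cases a with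
  | low A =>
    cases b with
    | low A' =>
      refine ⟨low (A ∪ A'), low_le_low.2 Finset.subset_union_left,
        low_le_low.2 Finset.subset_union_right, ?_⟩
      intro d h1 h2
      cases d with
      | low D => exact low_le_low.2 (Finset.union_subset h1 h2)
      | up D hD => exact absurd h1 not_up_le_low
      | mid x y i h => exact absurd h1 not_mid_le_low
    | up B h => exact lu A B h
    | mid x y i h => exact lm A x y i h
  | up B h =>
    cases b with
    | low A =>
      obtain ⟨c, h1, h2, h3⟩ := lu A B h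
      exact ⟨c, h2, h1, fun d hd1 hd2 => h3 d hd2 hd1⟩
    | up B' h' =>
      by_cases hne : (B ∩ B').Nonempty
      · refine ⟨up (B ∩ B') hne, up_le_up.2 Finset.inter_subset_left,
          up_le_up.2 Finset.inter_subset_right, ?_⟩
        intro d h1 h2
        cases d with
        | low D => exact trivial
        | up D hD => exact up_le_up.2 (Finset.subset_inter h1 h2)
        | mid x y i h => exact Finset.mem_inter.2 ⟨h1, h2⟩
      · refine ⟨low ∅, trivial, trivial, ?_⟩
        intro d h1 h2
        cases d with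
        | low D => exact low_le_low.2 (Finset.empty_subset _)
        | up D hD =>
          exact absurd (hD.mono (Finset.subset_inter (up_le_up.1 h1) (up_le_up.1 h2))) hne
        | mid x y i h => exact absurd ⟨y, Finset.mem_inter.2 ⟨h1, h2⟩⟩ hne
    | mid x y i h' =>
      obtain ⟨c, h1, h2, h3⟩ := mu x y i h' B h
      exact ⟨c, h2, h1, fun d hd1 hd2 => h3 d hd2 hd1⟩
  | mid x y i h =>
    cases b with
    | low A =>
      obtain ⟨c, h1, h2, h3⟩ := lm A x y i h
      exact ⟨c, h2, h1, fun d hd1 hd2 => h3 d hd2 hd1⟩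
    | up B h' => exact mu x y i h B h'
    | mid x' y' i' h' =>
      by_cases hs : x = x' ∧ y = y'
      · obtain ⟨rfl, rfl⟩ := hs
        rcases le_total i i' with hi | hi
        · exact ⟨mid x y i h, le_rfl, ⟨rfl, rfl, hi⟩, fun d h1 _ => h1⟩
        · exact ⟨mid x y i' h', ⟨rfl, rfl, hi⟩, le_rfl, fun d _ h2 => h2⟩
      · refine ⟨low {x, x'}, low_le_mid.2 (by simp), low_le_mid.2 (by simp), ?_⟩
        intro d h1 h2
        cases d with
        | low D =>
          exact low_le_low.2 (Finset.insert_subset h1 (Finset.singleton_subset_iff.2 h2))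
        | up D hD => exact absurd h1 not_up_le_mid
        | mid x'' y'' i'' h'' =>
          obtain ⟨rfl, rfl, _⟩ := mid_le_mid.1 h1
          obtain ⟨rfl, rfl, _⟩ := mid_le_mid.1 h2
          exact absurd ⟨rfl, rfl⟩ hs

noncomputable instance : Lattice (El X Y n) where
  sup a b := (exists_sup a b).choose
  le_sup_left a b := (exists_sup a b).choose_spec.1
  le_sup_right a b := (exists_sup a b).choose_spec.2.1
  sup_le a b c h1 h2 := (exists_sup a b).choose_spec.2.2 c h1 h2
  inf a b := (exists_inf a b).choose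
  inf_le_left a b := (exists_inf a b).choose_spec.1
  inf_le_right a b := (exists_inf a b).choose_spec.2.1
  le_inf a b c h1 h2 := (exists_inf b c).choose_spec.2.2 a h1 h2

/-- a rank function on the interval from `low A` to `up B` -/
def rk (a K : ℕ) : El X Y n → ℕ
  | low A' => a - A'.card
  | mid _ _ i _ => a + 1 + i
  | up B' _ => a + 1 + K + B'.card

theorem rk_lt {A : Finset X} {B : Finset Y} {K : ℕ} {hB : B.Nonempty}
    (hK : ∀ x ∈ A, ∀ y ∈ B, n x y ≤ K) {u v : El X Y n} (hu : low A ≤ u) (hv : v ≤ up B hB)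
    (huv : u < v) : rk A.card K u < rk A.card K v := by
  have hle := huv.le
  have hne := huv.ne
  cases u with
  | low A₁ =>
    cases v with
    | low A₂ =>
      have h1 : A₂ ⊂ A₁ :=
        Finset.ssubset_iff_subset_ne.2 ⟨hle, fun h => hne (by rw [h])⟩
      have h2 := Finset.card_lt_card h1
      have h3 : A₁.card ≤ A.card := Finset.card_le_card hu
      simp only [rk]
      omega
    | up B₂ h => simp only [rk]; omega
    | mid x y i h => simp only [rk]; omega
  | up B₁ h =>
    cases v with
    | low A₂ => exact absurd hle not_up_le_low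
    | up B₂ h =>
      have h1 : B₁ ⊂ B₂ :=
        Finset.ssubset_iff_subset_ne.2 ⟨hle, fun h => hne (by subst h; rfl)⟩
      have h2 := Finset.card_lt_card h1
      simp only [rk]
      omega
    | mid x y i h => exact absurd hle not_up_le_mid
  | mid x y i h =>
    cases v with
    | low A₂ => exact absurd hle not_mid_le_low
    | up B₂ h₂ =>
      have h1 : n x y ≤ K := hK x hu y (up_le_up.1 hv (mid_le_up.1 hle))
      simp only [rk]
      omega
    | mid x' y' i' h' =>
      obtain ⟨rfl, rfl, hi⟩ := mid_le_mid.1 hle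
      have : i ≠ i' := fun hh => hne (by subst hh; rfl)
      simp only [rk]
      omega

theorem rk_le {A : Finset X} {B : Finset Y} {K : ℕ} {hB : B.Nonempty}
    (hK : ∀ x ∈ A, ∀ y ∈ B, n x y ≤ K) {u : El X Y n} (hu : low A ≤ u) (hu' : u ≤ up B hB) :
    rk A.card K u ≤ A.card + 1 + K + B.card := by
  cases u with
  | low A₁ => simp only [rk]; omega
  | up B₁ h =>
    have := Finset.card_le_card (up_le_up.1 hu')
    simp only [rk]; omega
  | mid x y i h =>
    have h1 : n x y ≤ K := hK x hu y (mid_le_up.1 hu')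
    simp only [rk]; omega

theorem exists_low (u : El X Y n) : ∃ A, low A ≤ u := by
  cases u with
  | low A => exact ⟨A, le_rfl⟩
  | up B h => exact ⟨∅, trivial⟩
  | mid x y i h => exact ⟨{x}, low_le_mid.2 (Finset.mem_singleton_self x)⟩

theorem exists_up [Nonempty Y] (u : El X Y n) : ∃ B h, u ≤ up B h := by
  cases u with
  | low A =>
    obtain ⟨y⟩ := ‹Nonempty Y›
    exact ⟨{y}, Finset.singleton_nonempty y, trivial⟩
  | up B h => exact ⟨B, h, le_rfl⟩
  | mid x y i h => exact ⟨{y}, Finset.singleton_nonempty y, mid_le_up.2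
      (Finset.mem_singleton_self y)⟩

theorem locally_bounded [Nonempty Y] (u v : El X Y n) :
    ∃ N : ℕ, ∀ C : Set (El X Y n), IsChain (· ≤ ·) C → C ⊆ Set.Icc u v → C.encard ≤ N := by
  obtain ⟨A, hA⟩ := exists_low u
  obtain ⟨B, hB, hv⟩ := exists_up v
  obtain ⟨K, hK⟩ : ∃ K : ℕ, ∀ x ∈ A, ∀ y ∈ B, n x y ≤ K := by
    refine ⟨∑ x ∈ A, ∑ y ∈ B, n x y, fun x hx y hy => ?_⟩
    calc n x y ≤ ∑ y ∈ B, n x y := Finset.single_le_sum (f := fun y => n x y)
          (fun _ _ => Nat.zero_le _) hy
      _ ≤ _ := Finset.single_le_sum (f := fun x => ∑ y ∈ B, n x y)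
          (fun _ _ => Nat.zero_le _) hx
  refine ⟨A.card + 1 + K + B.card + 1, fun C hC hCs => ?_⟩
  have hinj : Set.InjOn (rk (n := n) A.card K) C := by
    intro a ha b hb hab
    by_contra hne
    rcases hC ha hb hne with h | h
    · exact absurd hab (rk_lt hK (hA.trans (hCs ha).1) ((hCs hb).2.trans hv)
        (lt_of_le_of_ne h hne)).ne
    · exact absurd hab.symm (rk_lt hK (hA.trans (hCs hb).1) ((hCs ha).2.trans hv)
        (lt_of_le_of_ne h (Ne.symm hne))).ne
  have himg : rk A.card K '' C ⊆ ((Finset.range (A.card + 1 + K + B.card + 1) : Finset ℕ) :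
      Set ℕ) := by
    rintro _ ⟨a, ha, rfl⟩
    have := rk_le hK (hA.trans (hCs ha).1) ((hCs ha).2.trans hv)
    simp only [Finset.coe_range, Set.mem_Iio]
    omega
  calc C.encard = (rk A.card K '' C).encard := (hinj.encard_image).symm
    _ ≤ ((Finset.range (A.card + 1 + K + B.card + 1) : Finset ℕ) : Set ℕ).encard :=
        Set.encard_le_encard himg
    _ = _ := by rw [Set.encard_coe_eq_coe_finsetCard, Finset.card_range]

theorem strictMono_gap {f : El X Y n → ℤ} (hf : StrictMono f) (x : X) (y : Y) :
    f (low {x}) + n x y < f (up {y} (Finset.singleton_nonempty y)) := by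
  have key : ∀ (i : ℕ) (h : i < n x y), f (low {x}) + i < f (mid x y i h) := by
    intro i
    induction i with
    | zero =>
      intro h
      have h1 : (low {x} : El X Y n) < mid x y 0 h := by
        refine lt_of_le_of_ne (low_le_mid.2 (Finset.mem_singleton_self x)) ?_
        intro hh
        cases hh
      have := hf h1
      push_cast
      linarith
    | succ i ih =>
      intro h
      have h0 := ih (by omega)
      have h1 : (mid x y i (by omega) : El X Y n) < mid x y (i + 1) h := by
        refine lt_of_le_of_ne (mid_le_mid.2 ⟨rfl, rfl, by omega⟩) ?_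
        intro hh
        injection hh
        omega
      have := hf h1
      push_cast
      linarith
  rcases Nat.eq_zero_or_pos (n x y) with h0 | h0
  · have h1 : (low {x} : El X Y n) < up {y} (Finset.singleton_nonempty y) := by
      refine lt_of_le_of_ne trivial ?_
      intro hh
      cases hh
    have := hf h1
    rw [h0]
    push_cast
    linarith
  · have h1 := key (n x y - 1) (by omega)
    have h2 : (mid x y (n x y - 1) (by omega) : El X Y n) <
        up {y} (Finset.singleton_nonempty y) := by
      refine lt_of_le_of_ne (mid_le_up.2 (Finset.mem_singleton_self y)) ?_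
      intro hh
      cases hh
    have h3 := hf h2
    have h4 : ((n x y - 1 : ℕ) : ℤ) = n x y - 1 := by
      push_cast [Nat.cast_sub (show 1 ≤ n x y from h0)]
      ring
    rw [h4] at h1
    linarith

end El

/-- **Q1 has a negative answer.** There is a lattice `L` which is locally chain-bounded (every
interval `[x, y]` has a finite bound on the sizes of its chains) and which admits no strictly
monotone map into the chain of integers. -/
theorem result : ∃ (L : Type) (_ : Lattice L),
    (∀ x y : L, x ≤ y → ∃ N : ℕ, ∀ C : Set L, IsChain (· ≤ ·) C → C ⊆ Set.Icc x y →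
      C.encard ≤ N) ∧
    ¬ ∃ f : L → ℤ, StrictMono f := by
  refine ⟨El (ℕ → ℕ) ℕ (fun α β => α β), inferInstance, fun x y _ => El.locally_bounded x y, ?_⟩
  rintro ⟨f, hf⟩
  let α : ℕ → ℕ := fun β => (f (El.up {β} (Finset.singleton_nonempty β))).natAbs + β
  have h := fun β => El.strictMono_gap hf α β
  have h1 := h (f (El.low {α})).natAbs
  have h2 : (α (f (El.low {α})).natAbs : ℤ) =
      |f (El.up {(f (El.low {α})).natAbs} (Finset.singleton_nonempty _))| +
        |f (El.low {α})| := by
    simp only [α]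
    push_cast
    rfl
  have h3 := le_abs_self (f (El.up {(f (El.low {α})).natAbs} (Finset.singleton_nonempty _)))
  have h4 := neg_abs_le (f (El.low {α}))
  rw [h2] at h1
  linarith

end Pool.Agent.Results.MP_df7fe8_co.LatticeCounterexample
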